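import Pool.Agent.H93.CUBE.LStmts
import Pool.Agent.H70.LIM.Pk

/-! Cube project, block LIMIT: module TRC (`Φ e = e` passes to the limit). -/

set_option autoImplicit false

open Polynomial Pool.CM

namespace Pool.H93.Cube

theorem TRC_thm (h1 : CANStmt) (_h2 : EXFStmt) : TRCStmt := by
  intro X E _ A hA m _ _ G e u _ _ e' d
  classical
  obtain ⟨I, hI⟩ := h1 X E A hA m (G none) u d.toLD0
  refine ⟨I, fun M C1 => hI.mono fun i hi Phi hPhi hcol PhiH hcong a => ?_⟩
  have hA' : A.ext.Ax := Pool.CM.All.ext X E A hA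
  -- the column `e'` of `Φ φ(Z)`
  have hc1 : ∀ b, (Phi.map (ex E) * d.Z.map (phiL (A.phi i) (X.p i) (X.hp i).ne_zero)) b e' =
      ex E (Phi b e) := by
    intro b
    rw [Matrix.mul_apply, Finset.sum_eq_single e]
    · rw [Matrix.map_apply, Matrix.map_apply, d.Ze, if_pos rfl, map_one, mul_one]
    · intro x _ hx
      rw [Matrix.map_apply, Matrix.map_apply, d.Ze, if_neg hx, map_zero, mul_zero]
    · intro h; exact absurd (Finset.mem_univ e) h
  let Y : Matrix u Unit E := fun x _ => PhiH x e' - (if x = e' then 1 else 0)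
  have hY : ∀ b, (d.Z * cM Y) b () = (d.Z * cM PhiH) b e' - (if b = e then 1 else 0) := by
    intro b
    rw [Matrix.mul_apply, Matrix.mul_apply]
    have e1 : ∀ x, d.Z b x * cM Y x () = d.Z b x * cM PhiH x e' -
        (if x = e' then d.Z b x else 0) := by
      intro x
      have e2 : cM Y x () = cM PhiH x e' - HahnSeries.C (if x = e' then (1 : E) else 0) := by
        change HahnSeries.C (PhiH x e' - (if x = e' then 1 else 0)) = _
        rw [map_sub]
        rfl
      rw [e2]
      split_ifs
      · rw [map_one]; ring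
      · rw [map_zero]; ring
    rw [Finset.sum_congr rfl fun x _ => e1 x, Finset.sum_sub_distrib, Finset.sum_ite_eq',
      if_pos (Finset.mem_univ e'), d.Ze]
  refine hi M Unit Y (fun b _ k hk => ?_) a ()
  rw [hY b]
  have h3 := hcong b e' k hk
  rw [hc1 b] at h3
  have h4 : Phi b e - (if b = e then 1 else 0) ∈ Pool.Agent.H70.LIM.Pk.Ts hA' i := by
    refine Subring.sub_mem _ (Pool.Agent.H70.LIM.Pk.mem_Ts hA' (hPhi b e)) ?_
    split_ifs
    · exact Subring.one_mem _
    · exact Subring.zero_mem _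
  have h5 := ((Pool.Agent.H70.LIM.Pk.ex_pL hA h4 M).1 (hcol b)) k
  have h6 : ex E (Phi b e - (if b = e then 1 else 0)) = ex E (Phi b e) -
      (if b = e then 1 else 0) := by
    rw [map_sub]
    split_ifs
    · rw [map_one]
    · rw [map_zero]
  rw [h6] at h5
  have h7 := (pI (A.O i) (X.p i) M).sub_mem h5 h3
  have h8 : (ex E (Phi b e) - (if b = e then 1 else 0)).coeff k -
      ((ex E (Phi b e)).coeff k - ((d.Z * cM PhiH) b e').coeff k) =
      ((d.Z * cM PhiH) b e' - (if b = e then 1 else 0)).coeff k := by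
    rw [HahnSeries.coeff_sub, HahnSeries.coeff_sub]
    ring
  rw [h8] at h7
  exact h7

end Pool.H93.Cube
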