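import Pool.Agent.H98.CUBE.TEP

/-!
# Cube project, block TAME, module GFL
-/

set_option autoImplicit false

open Finset MvPolynomial Pool.CM

namespace Pool.CUBE

namespace GFL

section
variable {A : Type} [CommRing A]

theorem hom_deg {σ : Type} {D : ℕ} {P : MvPolynomial σ A} (hP : P.IsHomogeneous D) {a : σ →₀ ℕ}
    (ha : coeff a P ≠ 0) : a.degree = D := by
  have h := hP ha
  rw [← h]
  exact (DFunLike.congr_fun (Finsupp.degree_eq_weight_one (R := ℕ) (σ := σ)) a)

theorem faceP_hom {n D : ℕ} {P : Poly (n + 1) A} (hP : P.IsHomogeneous D) :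
    (faceP P).IsHomogeneous D := by
  have := hP.aeval (n := 1) (Fin.cases 0 X : Fin (n + 2) → Poly n A) (fun i => by
    refine Fin.cases ?_ (fun i => ?_) i
    · exact isHomogeneous_zero _ _ _
    · exact isHomogeneous_X _ _)
  simpa [faceP] using this

theorem eP_hom (D : ℕ) (hD : 0 < D) : ∀ (n : ℕ) (P : Poly n A), P.IsHomogeneous D →
    (eP D n P).IsHomogeneous ((D - 1) * (n + 1))
  | 0, P, _ => by
    rw [eP]
    refine isHomogeneous_monomial _ ?_
    rw [Finsupp.degree_single]
    ring
  | n + 1, P, hP => by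
    rw [eP]
    have h1 : (pderiv 0 P).IsHomogeneous (D - 1) := hP.pderiv
    have h2 := (eP_hom D hD n (faceP P) (faceP_hom hP)).rename_isHomogeneous (f := Fin.succ)
    have := h1.mul h2
    have e : (D - 1) * (n + 1 + 1) = D - 1 + (D - 1) * (n + 1) := by ring
    rw [e]
    exact this

theorem eP_Wt {n D : ℕ} (hD : 0 < D) {P : Poly n A} (hP : P.IsHomogeneous D) :
    Wt (D * (n + 1)) (eP D n P) := by
  intro a ha
  have h2 : a.degree = (D - 1) * (n + 1) := hom_deg (eP_hom D hD n P hP) ha
  obtain ⟨d, rfl⟩ : ∃ d, D = d + 1 := ⟨D - 1, by omega⟩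
  rw [h2]
  simp only [Nat.add_sub_cancel]
  ring

theorem coeff_cD {σ : Type} (δ : Derivation ℤ A A) (g : MvPolynomial σ A) (a : σ →₀ ℕ) :
    coeff a (cD δ g) = δ (coeff a g) := rfl

theorem WtD_of_Wt {n D m : ℕ} {g : Poly n A} (h : Wt (D * m) g) : WtD D g := fun a ha =>
  ⟨m, h a ha⟩

theorem nab0_WtD {n D : ℕ} (δ : Derivation ℤ A A) {P g : Poly n A} (hP : P.IsHomogeneous D)
    (hg : WtD D g) : WtD D (nab0 δ P g) := by
  classical
  intro a ha
  rw [nab0_apply, coeff_sub, coeff_cD] at ha
  by_cases h1 : coeff a g = 0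
  · rw [h1, map_zero, zero_sub, neg_ne_zero, coeff_mul] at ha
    obtain ⟨⟨b, c⟩, hbc, hne⟩ := Finset.exists_ne_zero_of_sum_ne_zero ha
    rw [Finset.HasAntidiagonal.mem_antidiagonal] at hbc
    have hb : coeff b P ≠ 0 := by
      intro h
      apply hne
      simp only
      rw [coeff_cD, h, map_zero, zero_mul]
    have hc : coeff c g ≠ 0 := by
      intro h
      apply hne
      simp only
      rw [h, mul_zero]
    have hbD : b.degree = D := hom_deg hP hb
    simp only at hbc
    rw [← hbc, map_add, hbD, add_assoc]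
    exact dvd_add (dvd_refl D) (hg c hc)
  · exact hg a h1

end

section
variable {E : Type} [Field E] {n D : ℕ} {P : Poly n E} {N : Type} [Fintype N] [DecidableEq N]
  {b : N → Poly n E} {l : N → ℕ} {co : Poly n E →ₗ[E] (N → E)}

theorem co_rel (h : IsCo P D b l co) {g : Poly n E} (hg : g ∈ Rel P) : co g = 0 := by
  rw [Rel] at hg
  refine Submodule.iSup_induction _ (motive := fun x => co x = 0) hg ?_ ?_ ?_
  · rintro i _ ⟨h', rfl⟩
    exact h.rel i h'
  · exact map_zero _
  · intro x y hx hy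
    rw [map_add, hx, hy, add_zero]

theorem co_nab (h : IsCo P D b l co) (δ : Derivation ℤ E E) {g : Poly n E} (hg : WtD D g)
    (a : N) : co (nab0 δ P g) a = δ (co g a) + ∑ c, matG δ P b co a c * co g c := by
  classical
  have h1 := nab0_Rel δ P _ (h.span g hg)
  have h2 := co_rel h h1
  rw [map_sub, map_sub, sub_eq_zero, map_sum, map_sum] at h2
  rw [h2, Finset.sum_apply]
  have h3 : ∀ j, co (nab0 δ P (co g j • b j)) a =
      matG δ P b co a j * co g j + δ (co g j) * (Pi.single j (1 : E) : N → E) a := by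
    intro j
    rw [nab0_smul, map_add, map_smul, map_smul, h.cb j]
    simp only [Pi.add_apply, Pi.smul_apply, smul_eq_mul]
    rw [matG, Matrix.of_apply]
    ring
  rw [Finset.sum_congr rfl fun j _ => h3 j, Finset.sum_add_distrib]
  have h4 : ∑ j, δ (co g j) * (Pi.single j (1 : E) : N → E) a = δ (co g a) := by
    rw [Finset.sum_eq_single a]
    · simp
    · intro j _ hj
      rw [Pi.single_eq_of_ne (Ne.symm hj), mul_zero]
    · intro h; exact absurd (Finset.mem_univ a) h
  rw [h4]
  ring

end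

end GFL

theorem GFL_proof : GFLStmt := by
  classical
  intro Xi E _ _ A hA n D hD P hP N _ _ b l co h
  have key : ∀ (j : A.J) (g : Poly n E), WtD D g → ∀ a, co (nab0 (A.D j) P g) a =
      A.D j (co g a) + ∑ c, matG (A.D j) P b co a c * co g c :=
    fun j g hg a => GFL.co_nab h (A.D j) hg a
  have hb : ∀ c, WtD D (b c) := fun c => GFL.WtD_of_Wt (h.lb c)
  refine ⟨key, ?_, ?_⟩
  · intro j k
    have hcomm : ∀ g : Poly n E, nab0 (A.D j) P (nab0 (A.D k) P g) =
        nab0 (A.D k) P (nab0 (A.D j) P g) := by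
      intro g
      have hc : ∀ f : Poly n E, cD (A.D j) (cD (A.D k) f) = cD (A.D k) (cD (A.D j) f) := by
        intro f
        ext a
        rw [GFL.coeff_cD, GFL.coeff_cD, GFL.coeff_cD, GFL.coeff_cD, hA.D_comm]
      rw [nab0_apply, nab0_apply, nab0_apply, nab0_apply, map_sub, map_sub, Derivation.leibniz,
        Derivation.leibniz, hc g, hc P]
      simp only [smul_eq_mul]
      ring
    ext a c
    have e : ∀ j k : A.J, ((matG (A.D k) P b co).map (A.D j) +
        matG (A.D j) P b co * matG (A.D k) P b co) a c =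
        co (nab0 (A.D j) P (nab0 (A.D k) P (b c))) a := by
      intro j k
      rw [key j _ (GFL.nab0_WtD (A.D k) hP (hb c)), Matrix.add_apply, Matrix.map_apply,
        Matrix.mul_apply]
      rfl
    rw [e, e, hcomm]
  · intro j a
    have hw : WtD D (eP D n P) := GFL.WtD_of_Wt (GFL.eP_Wt hD hP)
    rw [← key j _ hw a, GFL.co_rel h (ehor n D E P hD
      (isUnit_iff_ne_zero.2 (Nat.cast_ne_zero.2 hD.ne')) hP (A.D j))]
    rfl

end Pool.CUBE
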