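import Pool.Agent.H41.CUBE.TStmts

/-!
# Cube project, block TAME, module TFERM
-/

set_option autoImplicit false

open Finset MvPolynomial Pool.CM

namespace Pool.CUBE

theorem TFERM_proof (h1 : FERMStmt) (h2 : ENZStmt) : TFERMStmt := by
  intro E _ _ n D hD P0 hP0
  refine ⟨?_, h1 E n D hD P0 hP0, h2 E n D hD P0 hP0⟩
  unfold ferm
  refine IsHomogeneous.add (hP0.map _) ?_
  have : (∑ i, X i ^ D : Poly n (RatFunc E)).IsHomogeneous D :=
    IsHomogeneous.sum _ _ _ fun i _ => by
      simpa using (isHomogeneous_X (RatFunc E) i).pow D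
  simpa using (isHomogeneous_C (Fin (n + 1)) (RatFunc.X : RatFunc E)).mul this

end Pool.CUBE
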