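import Pool.Agent.H38.CUBE.JJStmts2

/-!
# MP_47888e_al, block CONT/JJ, part 2, module CFJ
-/

set_option autoImplicit false

open Polynomial

namespace Pool.CUBE

open Pool.CM Pool.H93.Cube Corner

namespace F_CFJ

variable {E : Type} [Field E]

theorem cf3_zero (l s t : ℤ) : cf3 (0 : T3 E) l s t = 0 := by
  unfold cf3
  simp

theorem cf3_add (x y : T3 E) (l s t : ℤ) : cf3 (x + y) l s t = cf3 x l s t + cf3 y l s t := by
  unfold cf3
  rw [HahnSeries.coeff_add, HahnSeries.coeff_add, HahnSeries.coeff_add]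

theorem cf3_sum {ι : Type} (S : Finset ι) (f : ι → T3 E) (l s t : ℤ) :
    cf3 (∑ b ∈ S, f b) l s t = ∑ b ∈ S, cf3 (f b) l s t := by
  classical
  induction S using Finset.induction_on with
  | empty => simp [cf3_zero]
  | insert a S ha ih => rw [Finset.sum_insert ha, Finset.sum_insert ha, cf3_add, ih]

theorem act_sub (x : B3 E) (F G : ℤ → ℤ → ℤ → E) (l s t : ℤ) :
    act x (fun l s t => F l s t - G l s t) l s t = act x F l s t - act x G l s t := by
  unfold act
  simp only [Polynomial.sum, smul_sub, Finset.sum_sub_distrib]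

theorem phF_sub (φ : E →+* E) (p : ℕ) (F G : ℤ → ℤ → ℤ → E) :
    phF φ p (fun l s t => F l s t - G l s t) =
      fun l s t => phF φ p F l s t - phF φ p G l s t := by
  funext l s t
  unfold phF
  split_ifs
  · rw [map_sub]
  · rw [sub_zero]

theorem cf3_del [CharZero E] {n : ℕ} (h2 : DELStmt) (K : Corner n E) (a : Fin (n + 1) →₀ ℕ) :
    cf3 (K.del 0 a) = fun l s t => K.AI a l s t - K.RI 0 a l s t := by
  funext l s t
  by_cases hD : K.D ∣ a.degree + (n + 1)
  · unfold cf3
    rw [h2 n E K 0 a hD l s t]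
    unfold AI RI
    by_cases hlt : 0 ≤ l ∧ 0 ≤ t
    · rw [if_pos hlt, if_pos rfl, if_pos ⟨hD, hlt⟩, if_pos ⟨hD, hlt⟩]
    · rw [if_neg hlt, if_neg (fun h => hlt h.2), if_neg (fun h => hlt h.2), sub_zero]
  · have h0 : K.del 0 a = 0 := by
      unfold del
      rw [if_neg hD]
    rw [h0, cf3_zero]
    unfold AI RI
    rw [if_neg (fun h => hD h.1), if_neg (fun h => hD h.1), sub_zero]

end F_CFJ

open F_CFJ in
theorem cfj_thm (h1 : ACTStmt) (h2 : Corner.DELStmt) : Corner.CFJStmt := by
  classical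
  intro n E _ _ K
  obtain ⟨ha, hp'⟩ := h1 E
  refine ⟨?_, ?_⟩
  · intro φ p hp g l s t
    have hsum : K.JJp φ p hp (MvPolynomial.map (kB3 E) g) =
        ∑ b ∈ g.support, ex3 E (kB3 E (MvPolynomial.coeff b g)) * phiT φ p hp (K.del 0 b) := by
      change ∑ a ∈ (MvPolynomial.map (kB3 E) g).support,
        ex3 E ((MvPolynomial.map (kB3 E) g).coeff a) * phiT φ p hp (K.del 0 a) = _
      rw [Finset.sum_subset (MvPolynomial.support_map_subset (kB3 E) g)]
      · refine Finset.sum_congr rfl fun b _ => ?_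
        rw [MvPolynomial.coeff_map]
      · intro a _ ha'
        rw [MvPolynomial.notMem_support_iff.1 ha', map_zero, zero_mul]
    rw [hsum, cf3_sum]
    refine Finset.sum_congr rfl fun b _ => ?_
    rw [ha, hp', cf3_del h2, phF_sub, act_sub]
  · intro a l s t
    have hmon : K.JJ 0 (MvPolynomial.monomial a 1) = K.del 0 a := by
      change ∑ b ∈ (MvPolynomial.monomial a (1 : F3 E)).support,
        ex3 E ((MvPolynomial.monomial a (1 : F3 E)).coeff b) * K.del 0 b = _
      rw [MvPolynomial.support_monomial, if_neg one_ne_zero, Finset.sum_singleton,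
        MvPolynomial.coeff_monomial, if_pos rfl, map_one, one_mul]
    rw [hmon, cf3_del h2]

end Pool.CUBE
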