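import Pool.Agent.H38.CUBE.JJStmts
import Pool.Agent.H44.Cube.SUB5

/-!
# MP_47888e_al, block CONT/JJ, module DIR
-/

set_option autoImplicit false

namespace Pool.CUBE

open Pool.CM Pool.H93.Cube

namespace J_DIR

open MvPolynomial Pool.H44.Cube

variable {n : ℕ} {E : Type} [Field E]

theorem io_eq [Algebra ℚ E] (g : MvPolynomial (Fin (n + 1)) E) :
    Io g = IZ (n + 1) E (PZ (n + 1) E * g) := by
  induction g using MvPolynomial.induction_on' with
  | monomial κ c =>
    rw [PZ_eq, mon, monomial_mul, one_mul, IZ_monomial, Io, linMon_monomial, smul_eq_mul]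
    congr 1
    rw [dirw, map_div₀, map_prod]
    have h1 : ∀ i, ((Finsupp.equivFunOnFinite.symm (fun _ : Fin (n + 1) => 1) + κ :
        Fin (n + 1) →₀ ℕ) i) = 1 + κ i := by
      intro i
      rw [Finsupp.add_apply, Finsupp.equivFunOnFinite_symm_apply_apply]
    have h2 : (∑ i, (Finsupp.equivFunOnFinite.symm (fun _ : Fin (n + 1) => 1) + κ :
        Fin (n + 1) →₀ ℕ) i) - 1 = κ.degree + n := by
      simp_rw [h1]
      rw [Finset.sum_add_distrib, Finsupp.degree_eq_sum]
      simp
      omega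
    rw [h2]
    congr 1
    · refine Finset.prod_congr rfl fun i _ => ?_
      rw [h1, Nat.add_sub_cancel_left, map_natCast]
    · rw [map_natCast]
  | add p q hp hq =>
    rw [map_add, hp, hq, mul_add, map_add]

theorem jd_eq [Algebra ℚ E] (g : MvPolynomial (Fin n) E) :
    JD n E g = Intc g := by
  induction g using MvPolynomial.induction_on' with
  | monomial κ c =>
    rw [JD_monomial, Intc, linMon_monomial, smul_eq_mul]
    congr 1
    rw [map_prod]
    refine Finset.prod_congr rfl fun i _ => ?_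
    rw [map_inv₀, tail, Bx, map_sum]
    congr 1
    rw [Nat.cast_sum]
    refine Finset.sum_congr rfl fun i' _ => ?_
    rw [map_natCast]
  | add p q hp hq =>
    rw [map_add, hp, hq, map_add]

/-- `c_k` in homogeneous coordinates -/
theorem tz_cpt (k : ℕ) (hk : 1 ≤ k) (hkn : k ≤ n) (hl : k < n + 1) :
    tz n E (cpt E n k) = Pool.H44.Cube.cc (n + 1) E ⟨k, hl⟩ := by
  rw [cpt, if_neg (by omega), dif_pos (by omega), tz, aeval_X]
  congr 1
  ext
  simp
  omega

theorem cc_sub (i : Fin (n + 1)) (hi : (i : ℕ) + 1 < n + 1) :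
    Pool.H44.Cube.cc (n + 1) E i - Pool.H44.Cube.cc (n + 1) E ⟨(i : ℕ) + 1, hi⟩ = X i := by
  classical
  rw [Pool.H44.Cube.cc, Pool.H44.Cube.cc, Finset.sum_filter, Finset.sum_filter, ← Finset.sum_sub_distrib]
  rw [Finset.sum_eq_single i]
  · rw [if_pos le_rfl, if_neg, sub_zero]
    rw [Fin.le_def]
    simp
  · intro j _ hj
    have h1 : (i ≤ j) ↔ (⟨(i : ℕ) + 1, hi⟩ : Fin (n + 1)) ≤ j := by
      have h2 : (j : ℕ) ≠ i := fun h => hj (Fin.ext h)
      rw [Fin.le_def, Fin.le_def]
      simp only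
      omega
    by_cases h3 : i ≤ j
    · rw [if_pos h3, if_pos (h1.1 h3), sub_self]
    · rw [if_neg h3, if_neg (fun h => h3 (h1.2 h)), sub_self]
  · intro h
    exact absurd (Finset.mem_univ i) h

theorem cc_last (i : Fin (n + 1)) (hi : (i : ℕ) = n) : Pool.H44.Cube.cc (n + 1) E i = X i := by
  classical
  rw [Pool.H44.Cube.cc, Finset.sum_filter, Finset.sum_eq_single i]
  · rw [if_pos le_rfl]
  · intro j _ hj
    rw [if_neg]
    intro h
    apply hj
    rw [Fin.le_def] at h
    apply Fin.ext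
    have := j.2
    omega
  · intro h
    exact absurd (Finset.mem_univ i) h

theorem tz_zc_X (i : Fin (n + 1)) :
    tz n E (zc (X i)) - X i ∈ Ideal.span {SZ (n + 1) E - 1} := by
  rw [zc, aeval_X, map_sub]
  -- value at `i + 1`
  have h2 : ∀ k : ℕ, k = (i : ℕ) + 1 → tz n E (cpt E n k) = Pool.H44.Cube.cc (n + 1) E i - X i := by
    intro k hk
    rcases Nat.lt_or_ge k (n + 1) with h | h
    · rw [tz_cpt k (by omega) (by omega) h, ← cc_sub i (by omega)]
      subst hk
      ring
    · have h3 : (i : ℕ) = n := by have := i.2; omega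
      rw [cc_last i h3, sub_self, cpt, if_neg (by omega), dif_neg (by omega), map_zero]
  have h1 : tz n E (cpt E n i) - Pool.H44.Cube.cc (n + 1) E i ∈ Ideal.span {SZ (n + 1) E - 1} := by
    rcases Nat.eq_zero_or_pos (i : ℕ) with h | h
    · have h0 : i = 0 := Fin.ext h
      rw [h0, cc_zero, cpt]
      rw [if_pos (by simp), map_one]
      rw [Ideal.mem_span_singleton]
      exact ⟨-1, by ring⟩
    · rw [tz_cpt (i : ℕ) h (by have := i.2; omega) i.2, sub_self]
      exact Ideal.zero_mem _
  rw [h2 _ rfl]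
  have h3 : tz n E (cpt E n i) - (Pool.H44.Cube.cc (n + 1) E i - X i) - X i =
      tz n E (cpt E n i) - Pool.H44.Cube.cc (n + 1) E i := by ring
  rw [h3]
  exact h1

theorem tz_zc (g : MvPolynomial (Fin (n + 1)) E) :
    tz n E (zc g) - g ∈ Ideal.span {SZ (n + 1) E - 1} := by
  induction g using MvPolynomial.induction_on with
  | C a =>
    have h1 : tz n E (zc (C a)) = C a := by
      rw [← MvPolynomial.algebraMap_eq, AlgHom.commutes, AlgHom.commutes]
    rw [h1, sub_self]
    exact Ideal.zero_mem _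
  | add p q hp hq =>
    rw [map_add, map_add]
    have : tz n E (zc p) + tz n E (zc q) - (p + q) =
        (tz n E (zc p) - p) + (tz n E (zc q) - q) := by ring
    rw [this]
    exact Ideal.add_mem _ hp hq
  | mul_X p i hp =>
    rw [map_mul, map_mul]
    exact mul_sub_mul_mem hp (tz_zc_X i)

end J_DIR

open J_DIR Pool.H44.Cube in
theorem dir_thm : DIRStmt := by
  intro n E _ _ g
  letI : Algebra ℚ E := DivisionRing.toRatAlgebra
  rw [io_eq g, ← jd_eq (zc g), ← IZ_tz]
  exact (IZ_congr _ _ (tz_zc g)).symm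

end Pool.CUBE
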