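import Pool.Agent.H38.CUBE.JJStmts

/-!
# MP_47888e_al, block CONT/JJ, module RAT0
-/

set_option autoImplicit false

open Polynomial

namespace Pool.CUBE

namespace J_RAT0

variable {E : Type} [Field E]

theorem exPS (f : LaurentSeries E) (hf : ∀ j : ℕ, 1 ≤ j → f.coeff (-(j : ℤ)) = 0) :
    ∃ F : PowerSeries E, f = HahnSeries.ofPowerSeries ℤ E F ∧
      PowerSeries.constantCoeff F = f.coeff 0 := by
  refine ⟨PowerSeries.mk fun k => f.coeff (k : ℤ), ?_, ?_⟩
  · ext m
    rcases le_or_gt 0 m with hm | hm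
    · obtain ⟨k, rfl⟩ := Int.eq_ofNat_of_zero_le hm
      rw [HahnSeries.ofPowerSeries_apply_coeff, PowerSeries.coeff_mk]
    · have h1 : f.coeff m = 0 := by
        have := hf (-m).toNat (by omega)
        rwa [show (-(((-m).toNat : ℕ) : ℤ)) = m by omega] at this
      rw [h1]
      symm
      rw [HahnSeries.ofPowerSeries_apply]
      apply HahnSeries.embDomain_of_notMem_range
      rintro ⟨k, hk⟩
      have hk' : (k : ℤ) = m := hk
      omega
  · rw [← PowerSeries.coeff_zero_eq_constantCoeff_apply, PowerSeries.coeff_mk]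
    simp

end J_RAT0

open J_RAT0 in
theorem rat0_thm (h1 : RCStmt) : RAT0Stmt := by
  intro E _ _ r N0 hr
  obtain ⟨-, -, -, -, he, hz⟩ := h1 E
  -- no negative coefficients for polynomials
  have hneg : ∀ (N : ℤ) (g : E[X]) (j : ℕ), 1 ≤ j →
      (lexp N (algebraMap E[X] (RatFunc E) g)).coeff (-(j : ℤ)) = 0 := by
    intro N g j hj
    have h2 := hz N g j hj
    unfold Rc at h2
    rcases mul_eq_zero.1 h2 with h3 | h3
    · exfalso
      have h4 : ((j.factorial : ℕ) : E) ≠ 0 := by exact_mod_cast j.factorial_ne_zero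
      rcases div_eq_zero_iff.1 h3 with h5 | h5
      · exact (pow_ne_zero j (neg_ne_zero.2 one_ne_zero)) h5
      · exact h4 h5
    · exact h3
  have hzero : ∀ (N : ℤ) (s : RatFunc E), Rc 0 N s = (lexp N s).coeff 0 := by
    intro N s
    unfold Rc
    simp
  set g := r.num with hg
  set h := r.denom with hh
  have hh0 : h ≠ 0 := r.denom_ne_zero
  have hrh : r * algebraMap E[X] (RatFunc E) h = algebraMap E[X] (RatFunc E) g := by
    have h3 : algebraMap E[X] (RatFunc E) h ≠ 0 := by
      rwa [Ne, FaithfulSMul.algebraMap_eq_zero_iff]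
    rw [← eq_div_iff h3]
    exact (r.num_div_denom).symm
  have key : ∀ N : ℤ, N0 ≤ N → (g * h).eval (N : E) = 0 := by
    intro N hN
    rw [Polynomial.eval_mul]
    by_cases hN0 : h.eval (N : E) = 0
    · rw [hN0, mul_zero]
    have hN1 := hr N hN
    rw [hzero] at hN1
    obtain ⟨G, hG, hG0⟩ := exPS (lexp N (algebraMap E[X] (RatFunc E) g)) (hneg N g)
    obtain ⟨H, hH, hH0⟩ := exPS (lexp N (algebraMap E[X] (RatFunc E) h)) (hneg N h)
    rw [← hzero, he] at hG0 hH0
    have hHn : PowerSeries.constantCoeff H ≠ 0 := by rw [hH0]; exact hN0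
    have h5 : lexp N r * HahnSeries.ofPowerSeries ℤ E H = HahnSeries.ofPowerSeries ℤ E G := by
      rw [← hG, ← hH, ← map_mul, hrh]
    have h6 : lexp N r = HahnSeries.ofPowerSeries ℤ E (G * H⁻¹) := by
      have h7 : HahnSeries.ofPowerSeries ℤ E H * HahnSeries.ofPowerSeries ℤ E H⁻¹ = 1 := by
        rw [← map_mul, PowerSeries.mul_inv_cancel H hHn, map_one]
      calc lexp N r = lexp N r * (HahnSeries.ofPowerSeries ℤ E H *
            HahnSeries.ofPowerSeries ℤ E H⁻¹) := by rw [h7, mul_one]
        _ = _ := by rw [← mul_assoc, h5, ← map_mul]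
    rw [h6, show (0 : ℤ) = ((0 : ℕ) : ℤ) by rfl, HahnSeries.ofPowerSeries_apply_coeff,
      PowerSeries.coeff_zero_eq_constantCoeff_apply, map_mul, hG0] at hN1
    rcases mul_eq_zero.1 hN1 with h8 | h8
    · rw [h8, zero_mul]
    · exfalso
      have h9 := congrArg PowerSeries.constantCoeff (PowerSeries.mul_inv_cancel H hHn)
      rw [map_mul, h8, mul_zero, map_one] at h9
      exact zero_ne_one h9
  have hgh : g * h = 0 := by
    apply Polynomial.eq_zero_of_infinite_isRoot
    have hinj : Function.Injective (fun k : ℕ => (((N0 + (k : ℤ) : ℤ)) : E)) := by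
      intro a b hab
      simp only at hab
      have := Int.cast_injective (α := E) hab
      omega
    refine (Set.infinite_range_of_injective hinj).mono ?_
    rintro _ ⟨k, rfl⟩
    exact key (N0 + k) (by omega)
  have hg0 : g = 0 := (mul_eq_zero.1 hgh).resolve_right hh0
  rw [hg] at hg0
  exact RatFunc.num_eq_zero_iff.1 hg0

end Pool.CUBE
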