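import Pool.Agent.H38.CUBE.JJStmts2
import Pool.Agent.H46.CUBE.EPW

/-!
# MP_47888e_al, block CONT/JJ, part 2, module FROE
-/

set_option autoImplicit false

open Polynomial

namespace Pool.CUBE

open Pool.CM Pool.H93.Cube Corner

namespace F_FROE

variable {E : Type} [Field E]

theorem cf3_sum {ι : Type} (S : Finset ι) (f : ι → T3 E) (l s t : ℤ) :
    cf3 (∑ b ∈ S, f b) l s t = ∑ b ∈ S, cf3 (f b) l s t := by
  classical
  induction S using Finset.induction_on with
  | empty => simp [cf3]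
  | insert a S ha ih =>
    rw [Finset.sum_insert ha, Finset.sum_insert ha, ← ih]
    unfold cf3
    rw [HahnSeries.coeff_add, HahnSeries.coeff_add, HahnSeries.coeff_add]

theorem act_sub_mul (x : B3 E) (c : E) (F G : ℤ → ℤ → ℤ → E) (l s t : ℤ) :
    act x (fun l s t => F l s t - c * G l s t) l s t = act x F l s t - c * act x G l s t := by
  unfold act
  simp only [Polynomial.sum, smul_eq_mul, mul_sub, Finset.sum_sub_distrib, Finset.mul_sum]
  congr 1
  refine Finset.sum_congr rfl fun k _ => Finset.sum_congr rfl fun u _ =>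
    Finset.sum_congr rfl fun w _ => ?_
  ring

section
variable {X : Idx} (A : PF X E)

theorem dv_zero (i : X.I) (M : ℕ) : A.Dv i M 0 := ⟨0, (A.O i).zero_mem, by rw [mul_zero]⟩

theorem dv_add {i : X.I} {M : ℕ} {x y : E} (hx : A.Dv i M x) (hy : A.Dv i M y) :
    A.Dv i M (x + y) := by
  obtain ⟨a, ha, rfl⟩ := hx
  obtain ⟨b, hb, rfl⟩ := hy
  exact ⟨a + b, (A.O i).add_mem ha hb, by ring⟩

theorem dv_smul {i : X.I} {M : ℕ} {c x : E} (hc : c ∈ A.O i) (hx : A.Dv i M x) :
    A.Dv i M (c • x) := by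
  obtain ⟨a, ha, rfl⟩ := hx
  exact ⟨c * a, (A.O i).mul_mem hc ha, by rw [smul_eq_mul]; ring⟩

theorem dv_sum {i : X.I} {M : ℕ} {ι : Type} (S : Finset ι) (f : ι → E)
    (h : ∀ b ∈ S, A.Dv i M (f b)) : A.Dv i M (∑ b ∈ S, f b) := by
  classical
  induction S using Finset.induction_on with
  | empty => rw [Finset.sum_empty]; exact dv_zero A i M
  | insert a S ha ih =>
    rw [Finset.sum_insert ha]
    exact dv_add A (h a (Finset.mem_insert_self _ _))
      (ih fun b hb => h b (Finset.mem_insert_of_mem hb))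

theorem dv_act {i : X.I} {M : ℕ} (x : B3 E) (F : ℤ → ℤ → ℤ → E) (l s t : ℤ)
    (hx : ∀ k ∈ x.support, ∀ u ∈ (x.coeff k).support, ∀ w ∈ ((x.coeff k).coeff u).support,
      ((x.coeff k).coeff u).coeff w ∈ A.O i)
    (hF : ∀ l' s' t' : ℤ, l' ≤ l → s' ≤ s → t' ≤ t → A.Dv i M (F l' s' t')) :
    A.Dv i M (act x F l s t) := by
  unfold act
  simp only [Polynomial.sum]
  refine dv_sum A _ _ fun k hk => dv_sum A _ _ fun u hu => dv_sum A _ _ fun w hw => ?_
  exact dv_smul A (hx k hk u hu w hw) (hF _ _ _ (by omega) (by omega) (by omega))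

theorem ev_coef (hA : A.Ax) {n : ℕ} (g : Poly n (B3 E)) : X.Ev fun i =>
    ∀ a ∈ g.support, ∀ k ∈ (MvPolynomial.coeff a g).support,
      ∀ u ∈ ((MvPolynomial.coeff a g).coeff k).support,
      ∀ w ∈ (((MvPolynomial.coeff a g).coeff k).coeff u).support,
      (((MvPolynomial.coeff a g).coeff k).coeff u).coeff w ∈ A.O i := by
  refine Idx.Ev.allFinset _ fun a _ => Idx.Ev.allFinset _ fun k _ => Idx.Ev.allFinset _ fun u _ =>
    Idx.Ev.allFinset _ fun w hw => ?_
  exact (hA.pf2 _ (Polynomial.mem_support_iff.1 hw)).mono fun i hi => hi.2.1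

end

theorem Sg_hom' (n : ℕ) (A : Type) [CommRing A] : (Sg n A).IsHomogeneous 1 := by
  unfold Sg
  exact MvPolynomial.IsHomogeneous.sum _ _ _ fun i _ => MvPolynomial.isHomogeneous_X A i

theorem P3_hom {n : ℕ} (K : Corner n E) (h : K.X1.IsHomogeneous K.D) :
    K.P3.IsHomogeneous K.D := by
  unfold P3
  apply MvPolynomial.IsHomogeneous.sub
  · have h1 := (MvPolynomial.isHomogeneous_C (Fin (n + 1)) (Polynomial.X : B3 E)).mul
      ((Sg_hom' n (B3 E)).pow K.D)
    rw [zero_add, one_mul] at h1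
    exact h1
  · exact h.map _

end F_FROE

open F_FROE in
theorem froe_thm (h1 : Corner.FROBStmt) (h2 : Corner.JPRStmt) (h3 : Corner.MPPStmt)
    (h4 : ACTStmt) (h5 : Corner.LINStmt) (h6 : Corner.X1HStmt) : Corner.FROEStmt := by
  classical
  intro X E _ _ A hA n K J hJ C3
  have hX1 := (h6 X E A hA n K).1
  have hP3 := P3_hom K hX1
  obtain ⟨hw, hmap, -⟩ := EPW_proof (B3 E) n K.D K.hD K.P3 hP3
  set e3 : Poly n (B3 E) := eP K.D n K.P3 with he3
  refine ((ev_coef A hA e3).and (h1 X E A hA n K J hJ C3)).mono ?_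
  rintro i ⟨hi1, hi2⟩ l s t hl hs ht
  obtain ⟨hPP, -, -, -⟩ := h3 X E A n K i
  have heP : eP K.D n K.P = ∑ a ∈ e3.support,
      kB3 E (MvPolynomial.coeff a e3) • (MvPolynomial.monomial a (1 : F3 E)) := by
    rw [← hPP, hmap (F3 E) (kB3 E)]
    conv_lhs => rw [← MvPolynomial.support_sum_monomial_coeff e3]
    rw [map_sum]
    refine Finset.sum_congr rfl fun a _ => ?_
    rw [MvPolynomial.map_monomial, MvPolynomial.smul_monomial, smul_eq_mul, mul_one]
  have hJJ : cf3 (K.JJ 0 (eP K.D n K.P)) l s t = ∑ a ∈ e3.support,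
      act (MvPolynomial.coeff a e3) (cf3 (K.JJ 0 (MvPolynomial.monomial a 1))) l s t := by
    rw [heP, map_sum, cf3_sum]
    refine Finset.sum_congr rfl fun a _ => ?_
    rw [h5 n E K 0, (h4 E).1]
  have hJp : cf3 (K.JJp (A.phi i) (X.p i) (X.hp i).pos
      (rhoE (X.p i) K.D J (A.ext.ext.ext.phi i) K.P (eP K.D n K.P))) l s t =
      ∑ a ∈ e3.support, act (MvPolynomial.coeff a e3)
        (cf3 (K.JJp (A.phi i) (X.p i) (X.hp i).pos
          (rhoE (X.p i) K.D J (A.ext.ext.ext.phi i) K.P (MvPolynomial.monomial a 1)))) l s t := by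
    rw [heP, map_sum, map_sum, cf3_sum]
    refine Finset.sum_congr rfl fun a _ => ?_
    rw [map_smul, (h2 X E A i n K).1, (h4 E).1]
  rw [hJJ, hJp, Finset.mul_sum, ← Finset.sum_sub_distrib]
  refine dv_sum A _ _ fun a ha => ?_
  rw [← act_sub_mul]
  refine dv_act A _ _ l s t (hi1 a ha) ?_
  intro l' s' t' hl' hs' ht'
  have hwa : a.degree + (n + 1) = K.D * (n + 1) := hw a (MvPolynomial.mem_support_iff.1 ha)
  refine hi2 a ⟨n + 1, hwa⟩ ?_ l' s' t' (hl'.trans hl) (hs'.trans hs) (ht'.trans ht)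
  unfold lv
  rw [hwa, Nat.mul_div_cancel_left _ K.hD]

end Pool.CUBE
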